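import Pool.Agent.Helper77.OF4.St

/-!
# MP_7a9ddc_co, project OF4, module LI: lifting through a folding
-/

set_option autoImplicit false

namespace Pool.Agent.Helper51.OF4.LI

open Equiv Equiv.Perm Pool.Agent.Helper35.PM Pool.Agent.Helper77.HY Pool.Agent.Helper77.OF4

/-- two permutations which agree on an invariant set have the same powers there -/
theorem pow_agree {D : Type} (r s : Perm D) (P : D → Prop) (h1 : ∀ e, P e → r e = s e)
    (h2 : ∀ e, P e → P (s e)) (e : D) (he : P e) (n : ℕ) :
    (r ^ n) e = (s ^ n) e ∧ P ((s ^ n) e) := by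
  induction n with
  | zero => exact ⟨rfl, he⟩
  | succ n ih =>
    rw [pow_succ', Perm.mul_apply, ih.1, pow_succ', Perm.mul_apply]
    exact ⟨h1 _ ih.2, h2 _ ih.2⟩

theorem sameCycle_agree {D : Type} [Finite D] (r s : Perm D) (P : D → Prop)
    (h1 : ∀ e, P e → r e = s e) (h2 : ∀ e, P e → P (s e)) (e e' : D) (he : P e)
    (h : s.SameCycle e e') : r.SameCycle e e' := by
  obtain ⟨n, hn⟩ := h.exists_nat_pow_eq
  rw [← hn, ← (pow_agree r s P h1 h2 e he n).1]
  exact ⟨(n : ℤ), by rw [zpow_natCast]⟩

theorem const_cycle {D : Type} [Finite D] (r : Perm D) (c : D → ZMod 2)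
    (h : ∀ e, c (r e) = c e) (e e' : D) (hs : r.SameCycle e e') : c e = c e' := by
  obtain ⟨n, hn⟩ := hs.exists_nat_pow_eq
  rw [← hn]
  clear hn
  induction n with
  | zero => simp
  | succ n ih => rw [pow_succ', Perm.mul_apply, h, ih]

theorem main (hSp : StSp) (hP1 : StP1) : StLi := by
  intro V D _ _ _ M d h k W1 hC hCl
  obtain ⟨r', O, hPl, hr, hW, hO, hOW⟩ := hCl
  set a : D := M.r.symm d with ha
  set b : D := M.ι (M.φ d) with hb
  have hta : M.t a = M.t d := by
    conv_rhs => rw [← M.r.apply_symm_apply d, M.t_r]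
  have htb : M.t b = M.t (M.φ (M.φ d)) := by
    rw [hb, ← t_φ M (M.φ d)]
  have hab : a ≠ b := by
    intro h0
    exact h (by rw [← hta, ← htb, h0])
  have hM1r : ∀ e, (fold M d h).r e = M.r (swap a b e) := fun e => rfl
  have hM1t : ∀ e, (fold M d h).t e = pr (M.t d) (M.t (M.φ (M.φ d))) h (M.t e) := fun e => rfl
  have htab : (fold M d h).t a = (fold M d h).t b := by
    rw [hM1t, hM1t, pr_iff]
    exact Or.inr ⟨Or.inl hta, Or.inr htb⟩
  by_cases hcase : (fold M d h).t a ∈ W1
  · refine ⟨r', O, hPl, ?_, hW, hO, hOW⟩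
    intro e he
    have he' : (fold M d h).t e ∉ W1 := he
    rw [hr e he', hM1r, swap_apply_of_ne_of_ne]
    · rintro rfl
      exact he' hcase
    · rintro rfl
      exact he' (htab ▸ hcase)
  · have hcase' : (fold M d h).t b ∉ W1 := htab ▸ hcase
    -- the complement of the W-darts
    have hswap : ∀ e, (fold M d h).t e ∉ W1 → (fold M d h).t (swap a b e) ∉ W1 := by
      intro e he
      by_cases h1 : e = a
      · rw [h1, swap_apply_left]; exact hcase'
      · by_cases h2 : e = b
        · rw [h2, swap_apply_right]; exact hcase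
        · rw [swap_apply_of_ne_of_ne h1 h2]; exact he
    have hinv : ∀ e, (fold M d h).t e ∉ W1 → (fold M d h).t (r' e) ∉ W1 := by
      intro e he
      rw [hr e he, (fold M d h).t_r]; exact he
    have hinv' : ∀ e, (fold M d h).t e ∈ W1 → (fold M d h).t (r' e) ∈ W1 := by
      intro e he
      by_contra hn
      have := perm_symm_on_of_perm_on_finite (f := r') (p := fun e => (fold M d h).t e ∉ W1)
        hinv hn
      rw [Equiv.symm_apply_apply] at this
      exact this he
    have hout : ∀ e, (fold M d h).t e ∉ W1 → (r' * swap a b) e = M.r e := by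
      intro e he
      rw [Perm.mul_apply, hr _ (hswap e he), hM1r]
      congr 1
      by_cases h1 : e = a
      · rw [h1, swap_apply_left, swap_apply_right]
      · by_cases h2 : e = b
        · rw [h2, swap_apply_right, swap_apply_left]
        · rw [swap_apply_of_ne_of_ne h1 h2, swap_apply_of_ne_of_ne h1 h2]
    have hin : ∀ e, (fold M d h).t e ∈ W1 → (r' * swap a b) e = r' e := by
      intro e he
      rw [Perm.mul_apply, swap_apply_of_ne_of_ne]
      · rintro rfl; exact hcase he
      · rintro rfl; exact hcase' he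
    have hMt : ∀ e, (fold M d h).t e ∉ W1 → (fold M d h).t (M.r e) ∉ W1 := by
      intro e he
      rw [hM1t, M.t_r, ← hM1t]; exact he
    have hcyc : ∀ e e', (fold M d h).t e ∈ W1 → (fold M d h).t e' ∈ W1 →
        (r' * swap a b).SameCycle e e' := fun e e' he he' =>
      sameCycle_agree _ r' (fun e => (fold M d h).t e ∈ W1) hin hinv' e e' he (hW e e' he he')
    have hs : r'.SameCycle a b := by
      refine sameCycle_agree r' (fold M d h).r (fun e => (fold M d h).t e ∉ W1) hr ?_ a b hcase
        ((fold M d h).trans a b htab)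
      intro e he
      rw [(fold M d h).t_r]; exact he
    refine ⟨r' * swap a b, O, hPl.split hab hs, hout, hcyc, ⟨hO.1, ?_⟩, hOW⟩
    have hφ : (r' * swap a b) * M.inv.toPerm =
        (r' * M.inv.toPerm) * swap (M.ι a) (M.ι b) := by
      ext e
      simp only [Perm.mul_apply]
      show r' (swap a b (M.ι e)) = r' (M.ι (swap (M.ι a) (M.ι b) e))
      congr 1
      by_cases h1 : e = M.ι a
      · rw [h1, swap_apply_left, M.inv, M.inv, swap_apply_left]
      · by_cases h2 : e = M.ι b
        · rw [h2, swap_apply_right, M.inv, M.inv, swap_apply_right]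
        · rw [swap_apply_of_ne_of_ne h1 h2, swap_apply_of_ne_of_ne]
          · intro h3; exact h1 (by rw [← h3, M.inv])
          · intro h3; exact h2 (by rw [← h3, M.inv])
    rw [hφ]
    refine hP1 D (r' * M.inv.toPerm) (M.ι a) (M.ι b) O ?_ hO.2
    intro hsc
    obtain ⟨c, hc1, hc2, hc3⟩ := hSp D r' M.ι M.inv hPl a b hab hs hsc
    have hcv : ∀ e e', M.t e = M.t e' → c e = c e' := by
      intro e e' hee
      by_cases he : (fold M d h).t e ∈ W1
      · have he' : (fold M d h).t e' ∈ W1 := by
          rw [hM1t, ← hee]; exact he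
        exact const_cycle _ c hc2 e e' (hcyc e e' he he')
      · exact const_cycle _ c hc2 e e' (sameCycle_agree _ M.r
          (fun e => (fold M d h).t e ∉ W1) hout hMt e e' he (M.trans e e' hee))
    have hconn : ∀ w, Relation.ReflTransGen (fun a b => ∃ d, M.t d = a ∧ M.t (M.ι d) = b)
        (M.t a) w → ∀ e, M.t e = w → c a = c e := by
      intro w hw
      induction hw with
      | refl => exact fun e he => hcv a e he.symm
      | tail _ hstep ih =>
        obtain ⟨g, hg1, hg2⟩ := hstep
        intro e he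
        rw [ih g hg1, ← hc1 g]
        exact hcv _ _ (hg2.trans he.symm)
    exact hc3 (hconn _ (hC (M.t a) (M.t b)) b rfl)

end Pool.Agent.Helper51.OF4.LI
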